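import Mathlib

namespace Pool.Agent.H.MP_324c12_gt

open Set Filter Topology Real InnerProductGeometry
open scoped ENNReal NNReal

abbrev E := EuclideanSpace ℝ (Fin 3)

noncomputable def dS (S : Set E) (x y : E) : ℝ≥0∞ :=
  ⨅ (γ : ℝ → E) (_ : ContinuousOn γ (Icc 0 1) ∧ γ 0 = x ∧ γ 1 = y ∧ ∀ t ∈ Icc (0 : ℝ) 1, γ t ∈ S),
    eVariationOn γ (Icc 0 1)

def Reach (S : Set E) (x y : E) (l : ℝ) : Prop :=
  0 ≤ l ∧ ∃ γ : ℝ → E, Continuous γ ∧ MapsTo γ (Icc 0 1) S ∧ γ 0 = x ∧ γ 1 = y ∧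
    eVariationOn γ (Icc 0 1) ≤ ENNReal.ofReal l

theorem Reach.mono {S : Set E} {x y : E} {l l' : ℝ} (h : Reach S x y l) (hl : l ≤ l') :
    Reach S x y l' := by
  obtain ⟨h0, γ, h1, h2, h3, h4, h5⟩ := h
  exact ⟨h0.trans hl, γ, h1, h2, h3, h4, h5.trans (ENNReal.ofReal_le_ofReal hl)⟩

theorem Reach.dS_le {S : Set E} {x y : E} {l : ℝ} (h : Reach S x y l) :
    dS S x y ≤ ENNReal.ofReal l := by
  obtain ⟨-, γ, h1, h2, h3, h4, h5⟩ := h
  exact (iInf₂_le γ ⟨h1.continuousOn, h3, h4, h2⟩).trans h5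

theorem Reach.trans {S : Set E} {x y z : E} {l l' : ℝ} (h : Reach S x y l)
    (h' : Reach S y z l') : Reach S x z (l + l') := by
  obtain ⟨f0, f, f1, f2, f3, f4, f5⟩ := h
  obtain ⟨g0, g, g1, g2, g3, g4, g5⟩ := h'
  classical
  set γ : ℝ → E := fun t => if t ≤ 1 / 2 then f (2 * t) else g (2 * t - 1) with hγ
  have e1 : ∀ t, t ≤ 1 / 2 → γ t = f (2 * t) := fun t ht => by simp only [hγ, if_pos ht]
  have e2 : ∀ t, 1 / 2 ≤ t → γ t = g (2 * t - 1) := fun t ht => by
    rcases ht.eq_or_lt with rfl | ht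
    · rw [e1 _ le_rfl]
      norm_num [f4, g3]
    · simp only [hγ, if_neg (not_le.2 ht)]
  refine ⟨add_nonneg f0 g0, γ, ?_, ?_, ?_, ?_, ?_⟩
  · refine Continuous.if_le (by fun_prop) (by fun_prop) continuous_id continuous_const ?_
    rintro t rfl
    norm_num [f4, g3]
  · intro t ht
    rcases le_total t (1 / 2) with h | h
    · rw [e1 t h]
      exact f2 ⟨by linarith [ht.1], by linarith⟩
    · rw [e2 t h]
      exact g2 ⟨by linarith, by linarith [ht.2]⟩
  · rw [e1 0 (by norm_num), mul_zero, f3]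
  · rw [e2 1 (by norm_num)]
    norm_num [g4]
  · have a := eVariationOn.Icc_add_Icc γ (s := univ) (a := 0) (b := 1 / 2) (c := 1)
      (by norm_num) (by norm_num) (mem_univ _)
    simp only [univ_inter] at a
    rw [← a, ENNReal.ofReal_add f0 g0]
    apply add_le_add
    · rw [eVariationOn.congr (g := f ∘ fun t => 2 * t) (fun t ht => e1 t ht.2)]
      refine le_trans (eVariationOn.comp_le_of_monotoneOn f _ ?_ ?_) f5
      · intro a _ b _ hab
        dsimp only
        linarith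
      · intro t ht
        exact ⟨by linarith [ht.1], by linarith [ht.2]⟩
    · rw [eVariationOn.congr (g := g ∘ fun t => 2 * t - 1) (fun t ht => e2 t ht.1)]
      refine le_trans (eVariationOn.comp_le_of_monotoneOn g _ ?_ ?_) g5
      · intro a _ b _ hab
        dsimp only
        linarith
      · intro t ht
        exact ⟨by linarith [ht.1], by linarith [ht.2]⟩

theorem Reach.symm {S : Set E} {x y : E} {l : ℝ} (h : Reach S x y l) : Reach S y x l := by
  obtain ⟨f0, f, f1, f2, f3, f4, f5⟩ := h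
  have m : MapsTo (fun t : ℝ => 1 - t) (Icc 0 1) (Icc 0 1) := fun t ht =>
    ⟨by linarith [ht.2], by linarith [ht.1]⟩
  refine ⟨f0, f ∘ fun t => 1 - t, by fun_prop, f2.comp m, by simp [f4], by simp [f3],
    le_trans (eVariationOn.comp_le_of_antitoneOn f _ ?_ m) f5⟩
  intro a _ b _ hab
  dsimp only
  linarith

theorem Reach.map {S : Set E} {x y : E} {l : ℝ} (h : Reach S x y l) {σ : E → E}
    (h1 : LipschitzWith 1 σ) (h2 : MapsTo σ S S) : Reach S (σ x) (σ y) l := by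
  obtain ⟨f0, f, f1, f2, f3, f4, f5⟩ := h
  refine ⟨f0, σ ∘ f, h1.continuous.comp f1, h2.comp f2, by simp [f3], by simp [f4], ?_⟩
  have := (h1.lipschitzOnWith (s := univ)).comp_eVariationOn_le (g := f) (s := Icc 0 1)
    (mapsTo_univ _ _)
  simpa using this.trans (by simpa using f5)

theorem reach_seg {S : Set E} {x y : E} (h : segment ℝ x y ⊆ S) : Reach S x y ‖x - y‖ := by
  have hl : LipschitzWith (nndist x y) (AffineMap.lineMap x y : ℝ → E) := lipschitzWith_lineMap x y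
  refine ⟨norm_nonneg _, AffineMap.lineMap x y, hl.continuous, fun t ht => h ?_, by simp, by simp, ?_⟩
  · rw [segment_eq_image_lineMap]; exact mem_image_of_mem _ ht
  · have h1 := (hl.lipschitzOnWith (s := univ)).comp_eVariationOn_le (g := id) (s := Icc (0 : ℝ) 1)
      (mapsTo_univ _ _)
    have := MonotoneOn.eVariationOn_le (f := id) (s := univ) (monotone_id.monotoneOn _)
      (mem_univ (0 : ℝ)) (mem_univ 1)
    simp only [univ_inter, id, sub_zero, ENNReal.ofReal_one] at this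
    refine h1.trans ?_
    calc (nndist x y : ℝ≥0∞) * eVariationOn id (Icc (0 : ℝ) 1) ≤ nndist x y * 1 := by gcongr
      _ = ENNReal.ofReal ‖x - y‖ := by rw [mul_one, ← dist_eq_norm, ← edist_dist, edist_nndist]

theorem incr {h : ℝ → ℝ} (H : ∀ T ∈ Icc (0 : ℝ) 1, ∀ᶠ t in 𝓝[Icc 0 1] T,
    (t ≤ T → h t ≤ h T) ∧ (T ≤ t → h T ≤ h t)) : h 0 ≤ h 1 := by
  let A := {t ∈ Icc (0 : ℝ) 1 | h 0 ≤ h t}
  have a0 : A.Nonempty := ⟨0, by simp, le_rfl⟩
  have a1 : BddAbove A := ⟨1, fun t ht => ht.1.2⟩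
  have a2 := csSup_mem_closure a0 a1
  have a3 : sSup A ∈ Icc (0 : ℝ) 1 := closure_minimal (fun t ht => ht.1) isClosed_Icc a2
  have a4 := H _ a3
  have a5 : h 0 ≤ h (sSup A) := by
    haveI := mem_closure_iff_nhdsWithin_neBot.mp a2
    obtain ⟨t, ht, ht'⟩ := ((a4.filter_mono (nhdsWithin_mono _ fun t (ht : t ∈ A) => ht.1)).and
      self_mem_nhdsWithin).exists
    exact ht'.2.trans (ht.1 (le_csSup a1 ht'))
  rcases a3.2.eq_or_lt with e | e
  · rwa [e] at a5
  · exfalso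
    haveI := left_nhdsWithin_Ioo_neBot e
    obtain ⟨t, ht, ht'⟩ := ((a4.filter_mono (nhdsWithin_mono _ fun t (ht : t ∈ Ioo (sSup A) 1) =>
      (⟨a3.1.trans ht.1.le, ht.2.le⟩ : t ∈ Icc (0 : ℝ) 1))).and self_mem_nhdsWithin).exists
    exact (le_csSup a1 ⟨⟨a3.1.trans ht'.1.le, ht'.2.le⟩, a5.trans (ht.2 ht'.1.le)⟩).not_gt ht'.1

theorem angle_eq {a b : E} (ha : ‖a‖ = 1) (hb : ‖b‖ = 1) : angle a b = 2 * arcsin (‖a - b‖ / 2) := by
  have h1 := angle_nonneg a b
  have h2 := angle_le_pi a b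
  have h3 : sin (angle a b / 2) = ‖a - b‖ / 2 := by
    refine (pow_left_inj₀ (sin_nonneg_of_nonneg_of_le_pi (by linarith) (by linarith [pi_pos]))
      (by positivity) two_ne_zero).mp ?_
    rw [sin_sq_eq_half_sub, mul_div_cancel₀ _ (two_ne_zero), cos_angle, div_pow, norm_sub_sq_real,
      ha, hb]
    ring
  rw [← h3, arcsin_sin (by linarith [pi_pos]) (by linarith)]
  ring

theorem arcsin_le {ε : ℝ} (hε : 0 < ε) : ∀ᶠ x in 𝓝 (0 : ℝ), 0 ≤ x → arcsin x ≤ (1 + ε) * x := by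
  have h := (hasDerivAt_arcsin (x := 0) (by norm_num) (by norm_num)).isLittleO.def hε
  refine h.mono fun x hx h0 => ?_
  simp only [arcsin_zero, sub_zero, Real.norm_eq_abs, abs_of_nonneg h0] at hx
  have := (abs_le.mp hx).2
  norm_num at this
  linarith

theorem lower {S : Set E} {Ψ : E → E} {k : ℝ} (hk : 0 < k) (h1 : ∀ p ∈ S, ‖Ψ p‖ = 1)
    (h2 : ∀ p ∈ S, ∀ᶠ q in 𝓝[S] p, ‖Ψ q - Ψ p‖ ≤ k * ‖q - p‖) {x y : E} (hx : x ∈ S)
    (hxy : Ψ y = -Ψ x) : ENNReal.ofReal (π / k) ≤ dS S x y := by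
  refine le_iInf₂ fun γ ⟨c, g0, g1, m⟩ => ?_
  by_cases hb : eVariationOn γ (Icc 0 1) = ⊤
  · rw [hb]; exact le_top
  have hb' : LocallyBoundedVariationOn γ (Icc 0 1) :=
    BoundedVariationOn.locallyBoundedVariationOn hb
  have z0 : (0 : ℝ) ∈ Icc (0 : ℝ) 1 := by simp
  let v := variationOnFromTo γ (Icc 0 1) 0
  have hv : ∀ s ∈ Icc (0 : ℝ) 1, ∀ t ∈ Icc (0 : ℝ) 1, s ≤ t → ‖γ t - γ s‖ ≤ v t - v s := by
    intro s hs t ht hst
    have a := variationOnFromTo.add hb' z0 hs ht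
    have b : dist (γ t) (γ s) ≤ variationOnFromTo γ (Icc 0 1) s t := by
      rw [variationOnFromTo.eq_of_le _ _ hst]
      exact (hb' s t hs ht).dist_le ⟨ht, hst, le_rfl⟩ ⟨hs, le_rfl, hst⟩
    rw [dist_eq_norm] at b
    simp only [v]
    linarith
  have v1 : v 1 = (eVariationOn γ (Icc 0 1)).toReal := by
    simp only [v]
    rw [variationOnFromTo.eq_of_le _ _ zero_le_one, inter_self]
  have key : ∀ ε > 0, π ≤ (1 + ε) * k * v 1 := by
    intro ε hε
    have := incr (h := fun t => (1 + ε) * k * v t - angle (Ψ x) (Ψ (γ t))) fun T hT => by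
      have t1 : Tendsto γ (𝓝[Icc 0 1] T) (𝓝[S] γ T) :=
        (c T hT).tendsto_nhdsWithin fun t ht => m t ht
      have t2 : Tendsto (fun t => k * ‖γ t - γ T‖ / 2) (𝓝[Icc 0 1] T) (𝓝 0) := by
        have := (((c T hT).tendsto.sub_const (γ T)).norm.const_mul k).div_const 2
        simpa using this
      filter_upwards [t1.eventually (h2 _ (m T hT)), t2.eventually (arcsin_le hε),
        self_mem_nhdsWithin] with t a1 a2 ht
      have a3 : angle (Ψ (γ t)) (Ψ (γ T)) ≤ (1 + ε) * k * ‖γ t - γ T‖ := by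
        rw [angle_eq (h1 _ (m t ht)) (h1 _ (m T hT))]
        have := arcsin_le_arcsin (show ‖Ψ (γ t) - Ψ (γ T)‖ / 2 ≤ k * ‖γ t - γ T‖ / 2 by linarith)
        have := a2 (by positivity)
        linarith
      have p : 0 ≤ (1 + ε) * k := by positivity
      constructor
      · intro h
        have b1 := mul_le_mul_of_nonneg_left (hv t ht T hT h) p
        have b2 := angle_le_angle_add_angle (Ψ x) (Ψ (γ t)) (Ψ (γ T))
        rw [norm_sub_rev] at b1
        linarith
      · intro h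
        have b1 := mul_le_mul_of_nonneg_left (hv T hT t ht h) p
        have b2 := angle_le_angle_add_angle (Ψ x) (Ψ (γ T)) (Ψ (γ t))
        rw [angle_comm (Ψ (γ T))] at b2
        linarith
    have n : Ψ x ≠ 0 := fun e => by simpa [e] using h1 x hx
    simp only [g0, g1, hxy, angle_self n, angle_self_neg_of_nonzero n, v,
      variationOnFromTo.self] at this
    linarith
  have p0 : 0 ≤ v 1 := by rw [v1]; positivity
  have fin : π ≤ k * v 1 := by
    refine le_of_forall_pos_le_add fun δ hδ => ?_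
    have := key (δ / (k * v 1 + 1)) (by positivity)
    have e : δ / (k * v 1 + 1) * (k * v 1) ≤ δ := by
      rw [div_mul_eq_mul_div, div_le_iff₀ (by positivity)]; nlinarith
    linarith
  rw [ENNReal.ofReal_le_iff_le_toReal hb, ← v1, div_le_iff₀ hk]
  linarith

end Pool.Agent.H.MP_324c12_gt
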