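import Pool.Agent.H.MP_324c12_gt.A

namespace Pool.Agent.H.MP_324c12_gt

open Set Filter Topology Real
open scoped ENNReal NNReal

noncomputable def ze (p : E) : ℝ := 12 + 11 * p 0 / 60
def K : Set E := {p | p 0 ^ 2 + p 1 ^ 2 ≤ 3600 ∧ p 2 ≤ ze p ∧ -ze p ≤ p 2}
def S : Set E := {p | p ∈ K ∧ (p 0 ^ 2 + p 1 ^ 2 = 3600 ∨ p 2 = ze p ∨ p 2 = -ze p)}

theorem nsq (p q : E) : ‖p - q‖ ^ 2 = (p 0 - q 0) ^ 2 + (p 1 - q 1) ^ 2 + (p 2 - q 2) ^ 2 := by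
  simp [EuclideanSpace.real_norm_sq_eq, Fin.sum_univ_three]

theorem ext3 {p q : E} (h0 : p 0 = q 0) (h1 : p 1 = q 1) (h2 : p 2 = q 2) : p = q := by
  ext i; fin_cases i <;> assumption

theorem K_convex : Convex ℝ K := by
  rintro p ⟨p1, p2, p3⟩ q ⟨q1, q2, q3⟩ s t hs ht hst
  obtain rfl : t = 1 - s := by linarith
  simp only [K, ze, mem_setOf_eq, PiLp.add_apply, PiLp.smul_apply, smul_eq_mul] at *
  refine ⟨?_, ?_, ?_⟩
  · nlinarith [mul_nonneg hs ht, sq_nonneg (p 0 - q 0), sq_nonneg (p 1 - q 1),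
      mul_nonneg (mul_nonneg hs ht) (add_nonneg (sq_nonneg (p 0 - q 0)) (sq_nonneg (p 1 - q 1)))]
  · nlinarith
  · nlinarith

theorem K_closed : IsClosed K := by
  unfold K ze
  refine IsClosed.and (isClosed_le ?_ ?_) (IsClosed.and (isClosed_le ?_ ?_) (isClosed_le ?_ ?_)) <;>
    fun_prop

theorem K_compact : IsCompact K := by
  refine Metric.isCompact_of_isClosed_isBounded K_closed
    ((Metric.isBounded_closedBall (x := 0) (r := 100)).subset ?_)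
  rintro p ⟨p1, p2, p3⟩
  rw [mem_closedBall_iff_norm]
  refine (abs_le_of_sq_le_sq' ?_ (by norm_num)).2
  have := abs_le_of_sq_le_sq' (show p 0 ^ 2 ≤ 60 ^ 2 by nlinarith) (by norm_num)
  rw [nsq]
  simp only [ze, PiLp.zero_apply, sub_zero] at *
  nlinarith [this.1, this.2]

theorem int_K : interior K = {p | p 0 ^ 2 + p 1 ^ 2 < 3600 ∧ p 2 < ze p ∧ -ze p < p 2} := by
  apply Subset.antisymm
  · intro p hp
    have h1 : ∀ᶠ t : ℝ in 𝓝 1, t • p ∈ K := by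
      have c : Continuous fun t : ℝ => t • p := by fun_prop
      exact c.continuousAt.eventually_mem (by simpa using mem_interior_iff_mem_nhds.mp hp)
    obtain ⟨t, ⟨a1, a2, a3⟩, ht⟩ := ((h1.filter_mono nhdsWithin_le_nhds).and
      (self_mem_nhdsWithin (s := Ioi (1 : ℝ)))).exists
    have ht' : 1 < t := ht
    simp only [ze, PiLp.smul_apply, smul_eq_mul, mem_setOf_eq] at *
    refine ⟨?_, ?_, ?_⟩ <;> by_contra h <;> push Not at h
    · nlinarith [mul_le_mul_of_nonneg_left h (sq_nonneg t)]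
    · nlinarith
    · nlinarith
  · refine interior_maximal (fun p hp => ⟨hp.1.le, hp.2.1.le, hp.2.2.le⟩) ?_
    unfold ze
    refine IsOpen.and (isOpen_lt ?_ ?_) (IsOpen.and (isOpen_lt ?_ ?_) (isOpen_lt ?_ ?_)) <;>
      fun_prop

theorem frontier_K : frontier K = S := by
  rw [K_closed.frontier_eq, int_K]
  ext p
  simp only [S, mem_diff, mem_setOf_eq]
  refine and_congr_right fun ⟨h1, h2, h3⟩ => ⟨fun h => ?_, fun h h' => ?_⟩
  · by_contra h'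
    push Not at h'
    exact h ⟨lt_of_le_of_ne h1 h'.1, lt_of_le_of_ne h2 h'.2.1, lt_of_le_of_ne h3 h'.2.2.symm⟩
  · rcases h with h | h | h <;> linarith [h'.1, h'.2.1, h'.2.2]

structure H (p : E) (a b τ : ℝ) : Prop where
  u : a ^ 2 + b ^ 2 = 1
  t0 : 0 ≤ τ
  x : 61 * p 0 = 660 + 60 * τ * a
  y : p 1 = τ * b
  le : τ + ze p ≤ 73

theorem idH {p : E} {a b τ : ℝ} (u : a ^ 2 + b ^ 2 = 1) (x : 61 * p 0 = 660 + 60 * τ * a)
    (y : p 1 = τ * b) : p 0 ^ 2 + p 1 ^ 2 - 3600 = τ ^ 2 - (73 - ze p) ^ 2 := by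
  have : p 0 = (660 + 60 * τ * a) / 61 := by linarith
  rw [ze, y, this]
  linear_combination τ ^ 2 * u

theorem H.disc {p : E} {a b τ : ℝ} (h : H p a b τ) : p 0 ^ 2 + p 1 ^ 2 ≤ 3600 := by
  nlinarith [idH h.u h.x h.y, h.t0, h.le]

theorem ze_bd {p : E} (h : p 0 ^ 2 + p 1 ^ 2 ≤ 3600) : 1 ≤ ze p ∧ ze p ≤ 23 := by
  have := abs_le_of_sq_le_sq' (show p 0 ^ 2 ≤ 60 ^ 2 by nlinarith) (by norm_num)
  unfold ze
  constructor <;> linarith [this.1, this.2]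

theorem H.lat {p : E} {a b τ : ℝ} (h : H p a b τ) :
    p 0 ^ 2 + p 1 ^ 2 = 3600 ↔ τ + ze p = 73 := by
  have := idH h.u h.x h.y
  constructor
  · intro e
    have := (pow_left_inj₀ h.t0 (by linarith [h.le, h.t0]) two_ne_zero).mp
      (show τ ^ 2 = (73 - ze p) ^ 2 by linarith)
    linarith
  · intro e
    rw [show 73 - ze p = τ by linarith] at this
    linarith

theorem H.dist {p q : E} {a b τ a' b' τ' : ℝ} (h : H p a b τ) (h' : H q a' b' τ') :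
    (p 0 - q 0) ^ 2 + (p 1 - q 1) ^ 2 + (ze p - ze q) ^ 2 =
      (τ - τ') ^ 2 + τ * τ' * ((a - a') ^ 2 + (b - b') ^ 2) := by
  have e1 : p 0 = (660 + 60 * τ * a) / 61 := by linarith [h.x]
  have e2 : q 0 = (660 + 60 * τ' * a') / 61 := by linarith [h'.x]
  rw [ze, ze, h.y, h'.y, e1, e2]
  linear_combination (τ ^ 2 - τ * τ') * h.u + (τ' ^ 2 - τ * τ') * h'.u

def C (p : E) (a b r : ℝ) : Prop := ∃ τ, H p a b τ ∧ (p 2 = ze p ∧ r = τ ∨
  (τ + ze p = 73 ∧ r = 73 - p 2 ∧ -ze p ≤ p 2 ∧ p 2 ≤ ze p) ∨ p 2 = -ze p ∧ r = 146 - τ)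

theorem C.mem {p : E} {a b r : ℝ} (h : C p a b r) : p ∈ S := by
  obtain ⟨τ, h, h'⟩ := h
  have := ze_bd h.disc
  rcases h' with h' | h' | h'
  · exact ⟨⟨h.disc, h'.1.le, by linarith [h'.1]⟩, .inr (.inl h'.1)⟩
  · exact ⟨⟨h.disc, h'.2.2.2, h'.2.2.1⟩, .inl (h.lat.mpr h'.1)⟩
  · exact ⟨⟨h.disc, by linarith [h'.1], h'.1.ge⟩, .inr (.inr h'.1)⟩

theorem C.bd {p : E} {a b r : ℝ} (h : C p a b r) : a ^ 2 + b ^ 2 = 1 ∧ 0 ≤ r ∧ r ≤ 146 := by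
  obtain ⟨τ, h, h'⟩ := h
  have := ze_bd h.disc
  have := h.t0
  have := h.le
  refine ⟨h.u, ?_⟩
  rcases h' with ⟨-, h1⟩ | ⟨-, h1, h2, h3⟩ | ⟨-, h1⟩ <;> constructor <;> linarith

theorem polar (x y : ℝ) : ∃ a b τ : ℝ, a ^ 2 + b ^ 2 = 1 ∧ 0 ≤ τ ∧ x = τ * a ∧ y = τ * b := by
  by_cases h : x ^ 2 + y ^ 2 = 0
  · exact ⟨1, 0, 0, by norm_num, le_rfl, by nlinarith, by nlinarith⟩
  · have h1 : 0 < x ^ 2 + y ^ 2 := lt_of_le_of_ne (by positivity) (Ne.symm h)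
    have h2 := sqrt_pos.mpr h1
    refine ⟨x / √(x ^ 2 + y ^ 2), y / √(x ^ 2 + y ^ 2), _, ?_, h2.le, by field_simp, by field_simp⟩
    rw [div_pow, div_pow, sq_sqrt h1.le]; field_simp

theorem exC {p : E} (h : p ∈ S) : ∃ a b r, C p a b r := by
  obtain ⟨⟨h1, h2, h3⟩, h4⟩ := h
  obtain ⟨a, b, τ, u, t0, x, y⟩ := polar ((61 * p 0 - 660) / 60) (p 1)
  have x' : 61 * p 0 = 660 + 60 * τ * a := by linarith
  have := ze_bd h1
  have hh : H p a b τ := ⟨u, t0, x', y, by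
    have := (abs_le_of_sq_le_sq' (show τ ^ 2 ≤ (73 - ze p) ^ 2 by linarith [idH u x' y])
      (by linarith)).2
    linarith⟩
  rcases h4 with h4 | h4 | h4
  · exact ⟨a, b, _, τ, hh, .inr (.inl ⟨hh.lat.mp h4, rfl, h3, h2⟩)⟩
  · exact ⟨a, b, _, τ, hh, .inl ⟨h4, rfl⟩⟩
  · exact ⟨a, b, _, τ, hh, .inr (.inr ⟨h4, rfl⟩)⟩

noncomputable def pt (a b τ z : ℝ) : E := !₂[(660 + 60 * τ * a) / 61, τ * b, z]

theorem ze_pt (a b τ z : ℝ) : ze (pt a b τ z) = (853 + 11 * τ * a) / 61 := by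
  simp only [ze, pt, Matrix.cons_val_zero]; ring

theorem H_pt {a b τ : ℝ} (u : a ^ 2 + b ^ 2 = 1) (t0 : 0 ≤ τ) (h : τ * (61 + 11 * a) ≤ 3600)
    (z : ℝ) : H (pt a b τ z) a b τ :=
  ⟨u, t0, by simp only [pt, Matrix.cons_val_zero]; ring, rfl, by rw [ze_pt]; linarith⟩

theorem H.ze_eq {p : E} {a b τ : ℝ} (h : H p a b τ) : ze p = (853 + 11 * τ * a) / 61 := by
  rw [ze]; linarith [h.x]

theorem H.eq {p : E} {a b τ : ℝ} (h : H p a b τ) : p = pt a b τ (p 2) :=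
  ext3 (by simp only [pt, Matrix.cons_val_zero]; linarith [h.x]) h.y rfl

theorem a_bd {a b : ℝ} (u : a ^ 2 + b ^ 2 = 1) : -1 ≤ a ∧ a ≤ 1 :=
  abs_le_of_sq_le_sq' (show a ^ 2 ≤ 1 ^ 2 by nlinarith) (by norm_num)

theorem exP {a b r : ℝ} (u : a ^ 2 + b ^ 2 = 1) (h0 : 0 ≤ r) (h1 : r ≤ 146) : ∃ p, C p a b r := by
  have := a_bd u
  have w : 0 < 61 + 11 * a := by linarith
  obtain ⟨τ, hτ⟩ : ∃ τ, τ * (61 + 11 * a) = 3600 := ⟨3600 / (61 + 11 * a), by field_simp⟩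
  have t0 : 0 ≤ τ := by nlinarith
  by_cases c1 : r ≤ τ
  · exact ⟨pt a b r ((853 + 11 * r * a) / 61), r, H_pt u h0 (by nlinarith) _,
      .inl ⟨(ze_pt _ _ _ _).symm, rfl⟩⟩
  by_cases c2 : 146 - r ≤ τ
  · exact ⟨pt a b (146 - r) (-((853 + 11 * (146 - r) * a) / 61)), 146 - r,
      H_pt u (by linarith) (by nlinarith) _, .inr (.inr ⟨by rw [ze_pt]; rfl, by ring⟩)⟩
  · refine ⟨pt a b τ (73 - r), τ, H_pt u t0 hτ.le _, .inr (.inl ?_)⟩
    rw [ze_pt, show pt a b τ (73 - r) 2 = 73 - r from rfl]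
    refine ⟨by linarith, by ring, by linarith, by linarith⟩

theorem C.uniq {p q : E} {a b r : ℝ} (h : C p a b r) (h' : C q a b r) : p = q := by
  obtain ⟨τ, h, h1⟩ := h
  obtain ⟨τ', h', h2⟩ := h'
  have := a_bd h.u
  have w : 0 < 61 + 11 * a := by linarith
  have z := h.ze_eq
  have z' := h'.ze_eq
  have l := h.le
  have l' := h'.le
  have b1 := ze_bd h.disc
  have b2 := ze_bd h'.disc
  have m1 : τ' + ze q = 73 → τ ≤ τ' := fun e => le_of_mul_le_mul_right (by linarith) w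
  have m2 : τ + ze p = 73 → τ' ≤ τ := fun e => le_of_mul_le_mul_right (by linarith) w
  have : τ = τ' ∧ p 2 = q 2 := by
    rcases h1 with ⟨c1, c2⟩ | ⟨c1, c2, c3, c4⟩ | ⟨c1, c2⟩ <;>
      rcases h2 with ⟨d1, d2⟩ | ⟨d1, d2, d3, d4⟩ | ⟨d1, d2⟩
    · obtain rfl : τ = τ' := by linarith
      exact ⟨rfl, by linarith⟩
    · obtain rfl : τ = τ' := by linarith [m1 d1]
      exact ⟨rfl, by linarith⟩
    · exfalso; linarith
    · obtain rfl : τ = τ' := by linarith [m2 c1]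
      exact ⟨rfl, by linarith⟩
    · exact ⟨le_antisymm (m1 d1) (m2 c1), by linarith⟩
    · obtain rfl : τ = τ' := by linarith [m2 c1]
      exact ⟨rfl, by linarith⟩
    · exfalso; linarith
    · obtain rfl : τ = τ' := by linarith [m1 d1]
      exact ⟨rfl, by linarith⟩
    · obtain rfl : τ = τ' := by linarith
      exact ⟨rfl, by linarith⟩
  rw [h.eq, h'.eq, this.1, this.2]

theorem C.pole {p : E} {a b r a' b' : ℝ} (h : C p a b r) (hr : r = 0 ∨ r = 146)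
    (u : a' ^ 2 + b' ^ 2 = 1) : C p a' b' r := by
  obtain ⟨τ, h, h1⟩ := h
  have b1 := ze_bd h.disc
  have l := h.le
  obtain rfl : τ = 0 := by
    rcases h1 with ⟨c1, c2⟩ | ⟨c1, c2, c3, c4⟩ | ⟨c1, c2⟩ <;> rcases hr with hr | hr <;> linarith
  exact ⟨0, ⟨u, le_rfl, by linarith [h.x], by linarith [h.y], l⟩, h1⟩

noncomputable def mir (p : E) : E := !₂[p 0, p 1, -p 2]

theorem mir_mir (p : E) : mir (mir p) = p := ext3 rfl rfl (neg_neg _)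

theorem mir_lip : LipschitzWith 1 mir := LipschitzWith.of_dist_le_mul fun p q => by
  rw [NNReal.coe_one, one_mul, dist_eq_norm, dist_eq_norm]
  refine (abs_le_of_sq_le_sq' (le_of_eq ?_) (norm_nonneg _)).2
  rw [nsq, nsq]
  change (p 0 - q 0) ^ 2 + (p 1 - q 1) ^ 2 + (-p 2 - -q 2) ^ 2 = _
  ring

theorem C.mir {p : E} {a b r : ℝ} (h : C p a b r) : C (mir p) a b (146 - r) := by
  obtain ⟨τ, h, h1⟩ := h
  refine ⟨τ, ⟨h.u, h.t0, h.x, h.y, h.le⟩, ?_⟩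
  change -p 2 = ze p ∧ _ ∨ (τ + ze p = 73 ∧ _ = 73 - -p 2 ∧ -ze p ≤ -p 2 ∧ -p 2 ≤ ze p) ∨
    -p 2 = -ze p ∧ _
  rcases h1 with ⟨c1, c2⟩ | ⟨c1, c2, c3, c4⟩ | ⟨c1, c2⟩
  · exact .inr (.inr ⟨by linarith, by linarith⟩)
  · exact .inr (.inl ⟨c1, by linarith, by linarith, by linarith⟩)
  · exact .inl ⟨by linarith, by linarith⟩

theorem mir_maps : MapsTo mir S S := fun p hp => by
  obtain ⟨a, b, r, h⟩ := exC hp
  exact h.mir.mem

end Pool.Agent.H.MP_324c12_gt
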