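import Pool.Agent.H.MP_324c12_gt.B

namespace Pool.Agent.H.MP_324c12_gt

open Set Filter Topology Real
open scoped ENNReal NNReal

noncomputable def Sph (a b r : ℝ) : E :=
  !₂[sin (π / 146 * r) * a, sin (π / 146 * r) * b, cos (π / 146 * r)]

theorem Sph_norm {a b : ℝ} (u : a ^ 2 + b ^ 2 = 1) (r : ℝ) : ‖Sph a b r‖ = 1 := by
  refine (pow_left_inj₀ (norm_nonneg _) zero_le_one two_ne_zero).mp ?_
  rw [← sub_zero (Sph a b r), nsq]
  simp only [Sph, PiLp.zero_apply, sub_zero, Matrix.cons_val]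
  linear_combination sin (π / 146 * r) ^ 2 * u + sin_sq_add_cos_sq (π / 146 * r)

theorem Sph_anti (a b r : ℝ) : Sph (-a) (-b) (146 - r) = -Sph a b r := by
  have : π / 146 * (146 - r) = π - π / 146 * r := by ring
  refine ext3 ?_ ?_ ?_ <;> simp [Sph, this]

theorem Sph_lip {a b r a' b' r' m d : ℝ} (u : a ^ 2 + b ^ 2 = 1) (u' : a' ^ 2 + b' ^ 2 = 1)
    (h : sin (π / 146 * r) * sin (π / 146 * r') ≤ (π / 146) ^ 2 * m) (hd : 0 ≤ d)
    (e : d ^ 2 = (r - r') ^ 2 + m * ((a - a') ^ 2 + (b - b') ^ 2)) :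
    ‖Sph a b r - Sph a' b' r'‖ ≤ π / 146 * d := by
  refine (abs_le_of_sq_le_sq' ?_ (by positivity)).2
  rw [nsq, mul_pow, e]
  simp only [Sph, Matrix.cons_val]
  have h1 := one_sub_sq_div_two_le_cos (x := π / 146 * r - π / 146 * r')
  rw [cos_sub] at h1
  have h2 := sin_sq_add_cos_sq (π / 146 * r)
  have h3 := sin_sq_add_cos_sq (π / 146 * r')
  have h4 := mul_le_mul_of_nonneg_right h (add_nonneg (sq_nonneg (a - a')) (sq_nonneg (b - b')))
  generalize sin (π / 146 * r) = s at *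
  generalize sin (π / 146 * r') = s' at *
  generalize cos (π / 146 * r) = c at *
  generalize cos (π / 146 * r') = c' at *
  generalize π / 146 = k at *
  have h5 : (s * a - s' * a') ^ 2 + (s * b - s' * b') ^ 2 + (c - c') ^ 2 =
      2 - 2 * (c * c' + s * s') + s * s' * ((a - a') ^ 2 + (b - b') ^ 2) := by
    linear_combination (s ^ 2 - s * s') * u + (s' ^ 2 - s * s') * u' + h2 + h3
  rw [h5]
  nlinarith

theorem C.top {p : E} {a b r : ℝ} (h : C p a b r) (e : p 2 = ze p) : H p a b r := by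
  obtain ⟨τ, h, h1⟩ := h
  have := ze_bd h.disc
  obtain rfl : r = τ := by
    rcases h1 with ⟨c1, c2⟩ | ⟨c1, c2, c3, c4⟩ | ⟨c1, c2⟩ <;> linarith
  exact h

theorem C.lat {p : E} {a b r : ℝ} (h : C p a b r) (e : p 0 ^ 2 + p 1 ^ 2 = 3600) :
    H p a b (73 - ze p) ∧ r = 73 - p 2 := by
  obtain ⟨τ, h, h1⟩ := h
  have := h.lat.mp e
  obtain rfl : τ = 73 - ze p := by linarith
  refine ⟨h, ?_⟩
  rcases h1 with ⟨c1, c2⟩ | ⟨c1, c2, c3, c4⟩ | ⟨c1, c2⟩ <;> linarith

theorem lip_top {p q : E} {a b r a' b' r' : ℝ} (h : C p a b r) (h' : C q a' b' r')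
    (e : p 2 = ze p) (e' : q 2 = ze q) : ‖Sph a b r - Sph a' b' r'‖ ≤ π / 146 * ‖p - q‖ := by
  have s : ∀ {r : ℝ}, 0 ≤ r → r ≤ 146 → 0 ≤ sin (π / 146 * r) ∧ sin (π / 146 * r) ≤ π / 146 * r :=
    fun h0 h1 => ⟨sin_nonneg_of_nonneg_of_le_pi (by positivity) (by nlinarith [pi_pos]),
      sin_le (by positivity)⟩
  obtain ⟨u, b1, b2⟩ := h.bd
  obtain ⟨u', b3, b4⟩ := h'.bd
  refine Sph_lip u u' (m := r * r') ?_ (norm_nonneg _) ?_
  · have := mul_le_mul (s b1 b2).2 (s b3 b4).2 (s b3 b4).1 (by positivity)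
    linarith
  · rw [nsq, e, e', (h.top e).dist (h'.top e')]

theorem lip {p q : E} {a b r a' b' r' : ℝ} (h : C p a b r) (h' : C q a' b' r')
    (e : (p 0 ^ 2 + p 1 ^ 2 = 3600 ∧ q 0 ^ 2 + q 1 ^ 2 = 3600) ∨ (p 2 = ze p ∧ q 2 = ze q) ∨
      (p 2 = -ze p ∧ q 2 = -ze q)) : ‖Sph a b r - Sph a' b' r'‖ ≤ π / 146 * ‖p - q‖ := by
  rcases e with ⟨e, e'⟩ | ⟨e, e'⟩ | ⟨e, e'⟩
  · obtain ⟨h1, h2⟩ := h.lat e
    obtain ⟨h3, h4⟩ := h'.lat e'
    have b1 := ze_bd e.le
    have b2 := ze_bd e'.le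
    refine Sph_lip h1.u h3.u (m := (73 - ze p) * (73 - ze q)) ?_ (norm_nonneg _) ?_
    · have a1 : sin (π / 146 * r) * sin (π / 146 * r') ≤ 1 := by
        nlinarith [sin_sq_le_one (π / 146 * r), sin_sq_le_one (π / 146 * r'),
          sq_nonneg (sin (π / 146 * r) - sin (π / 146 * r'))]
      have a2 : 50 * 50 ≤ (73 - ze p) * (73 - ze q) :=
        mul_le_mul (by linarith) (by linarith) (by norm_num) (by linarith)
      have a3 : (3 / 146) ^ 2 ≤ (π / 146) ^ 2 := by gcongr; exact pi_gt_three.le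
      nlinarith
    · rw [nsq, h2, h4]
      linear_combination h1.dist h3
  · exact lip_top h h' e e'
  · have := lip_top h.mir h'.mir (show -p 2 = ze p by linarith) (show -q 2 = ze q by linarith)
    have e1 : ∀ a b r, Sph a b r = mir (Sph a b (146 - r)) := fun a b r => by
      have : π / 146 * (146 - r) = π - π / 146 * r := by ring
      refine ext3 ?_ ?_ ?_ <;> simp [Sph, this, mir]
    have a1 := mir_lip.dist_le_mul (Sph a b (146 - r)) (Sph a' b' (146 - r'))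
    have a2 := mir_lip.dist_le_mul p q
    rw [← e1, ← e1] at a1
    simp only [NNReal.coe_one, one_mul, dist_eq_norm] at a1 a2
    have := mul_le_mul_of_nonneg_left a2 (show 0 ≤ π / 146 by positivity)
    linarith

theorem low {p q : E} {a b r : ℝ} (h : C p a b r) (h' : C q (-a) (-b) (146 - r)) :
    ENNReal.ofReal 146 ≤ dS S p q := by
  have := fun p (hp : p ∈ S) => exC hp
  choose! fa fb fr hf using this
  have wd : ∀ {p a b r}, C p a b r → Sph (fa p) (fb p) (fr p) = Sph a b r := fun {p a b r} h => by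
    have := lip (hf p h.mem) h (by rcases h.mem.2 with e | e | e <;> simp [e])
    rw [sub_self, norm_zero, mul_zero] at this
    exact sub_eq_zero.mp (norm_le_zero_iff.mp this)
  have := lower (S := S) (Ψ := fun p => Sph (fa p) (fb p) (fr p)) (k := π / 146) (by positivity)
    (fun p hp => Sph_norm (hf p hp).bd.1 _) (fun p hp => ?_) h.mem
    (y := q) (by simp only [wd h, wd h', Sph_anti])
  · rwa [show π / (π / 146) = 146 by field_simp] at this
  have ev : ∀ f : E → ℝ, Continuous f → ∀ᶠ q in 𝓝[S] p, f q = 0 → f p = 0 := fun f c => by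
    by_cases e : f p = 0
    · exact .of_forall fun _ _ => e
    · exact ((c.continuousAt.eventually_ne e).filter_mono nhdsWithin_le_nhds).mono
        fun q hq e' => absurd e' hq
  filter_upwards [ev (fun q => q 0 ^ 2 + q 1 ^ 2 - 3600) (by fun_prop),
    ev (fun q => q 2 - ze q) (by unfold ze; fun_prop),
    ev (fun q => q 2 + ze q) (by unfold ze; fun_prop), self_mem_nhdsWithin] with q e1 e2 e3 hq
  refine lip (hf q hq) (hf p hp) ?_
  rcases hq.2 with e | e | e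
  · exact .inl ⟨e, by linarith [e1 (by linarith)]⟩
  · exact .inr (.inl ⟨e, by linarith [e2 (by linarith)]⟩)
  · exact .inr (.inr ⟨e, by linarith [e3 (by linarith)]⟩)

theorem seg_top {p q : E} (hp : p ∈ S) (hq : q ∈ S) (e : p 2 = ze p) (e' : q 2 = ze q) :
    Reach S p q ‖p - q‖ := reach_seg fun x hx => ⟨K_convex.segment_subset hp.1 hq.1 hx, by
  obtain ⟨s, t, -, -, hst, rfl⟩ := hx
  right; left
  simp only [ze, PiLp.add_apply, PiLp.smul_apply, smul_eq_mul] at *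
  rw [e, e']
  linear_combination 12 * hst⟩

theorem seg_lat {p q : E} (hp : p ∈ S) (hq : q ∈ S) (e : p 0 ^ 2 + p 1 ^ 2 = 3600)
    (e0 : q 0 = p 0) (e1 : q 1 = p 1) (e2 : p 2 ≤ q 2) : Reach S p q (q 2 - p 2) := by
  refine (reach_seg (S := S) (x := p) (y := q) fun x hx => ?_).mono ?_
  · refine ⟨K_convex.segment_subset hp.1 hq.1 hx, ?_⟩
    obtain ⟨s, t, -, -, hst, rfl⟩ := hx
    left
    obtain rfl : t = 1 - s := by linarith
    simp only [PiLp.add_apply, PiLp.smul_apply, smul_eq_mul, e0, e1]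
    linear_combination e
  · refine (abs_le_of_sq_le_sq' (le_of_eq ?_) (by linarith)).2
    rw [nsq, e0, e1]; ring

theorem ray {p q : E} {a b r r' : ℝ} (h : C p a b r) (h' : C q a b r') (e : p 2 = ze p)
    (e' : q 2 = ze q) (hr : r' ≤ r) : Reach S p q (r - r') := by
  refine (seg_top h.mem h'.mem e e').mono (abs_le_of_sq_le_sq' (le_of_eq ?_) (by linarith)).2
  rw [nsq, e, e', (h.top e).dist (h'.top e')]; ring

theorem up {p q : E} {a b r δ : ℝ} (h : C p a b r) (h' : C q a b δ) (e' : q 2 = ze q)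
    (hr : δ ≤ r) (h50 : δ ≤ 50) : Reach S p q (r - δ) := by
  have lat : ∀ {p r}, C p a b r → p 0 ^ 2 + p 1 ^ 2 = 3600 → Reach S p q (r - δ) := by
    intro p r h e
    obtain ⟨h1, h2⟩ := h.lat e
    have b1 := ze_bd e.le
    have h3 : C (!₂[p 0, p 1, ze p] : E) a b (73 - ze p) :=
      ⟨_, ⟨h1.u, h1.t0, h1.x, h1.y, h1.le⟩, .inl ⟨rfl, rfl⟩⟩
    refine ((seg_lat h.mem h3.mem e rfl rfl h.mem.1.2.1).trans
      (ray h3 h' rfl e' (by linarith))).mono (le_of_eq ?_)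
    change ze p - p 2 + _ = _
    linarith
  rcases h.mem.2 with e | e | e
  · exact lat h e
  · exact ray h h' e e' hr
  · have h1 := h.mir.top (show -p 2 = ze p by linarith)
    have := a_bd h1.u
    have w : 0 < 61 + 11 * a := by linarith
    obtain ⟨τ, hτ⟩ : ∃ τ, τ * (61 + 11 * a) = 3600 := ⟨3600 / (61 + 11 * a), by field_simp⟩
    have t0 : 0 ≤ τ := by nlinarith
    have h2 := H_pt h1.u t0 hτ.le ((853 + 11 * τ * a) / 61)
    have e2 := (ze_pt a b τ ((853 + 11 * τ * a) / 61)).symm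
    have h3 : C _ a b τ := ⟨τ, h2, .inl ⟨e2, rfl⟩⟩
    have h4 : 146 - r ≤ τ := le_of_mul_le_mul_right (by linarith [h1.le, h1.ze_eq]) w
    have h5 := (ray h3 h.mir e2 (show -p 2 = ze p by linarith) h4).symm.map mir_lip mir_maps
    rw [mir_mir] at h5
    refine (h5.trans (lat h3.mir (h2.lat.mpr (by linarith [h2.ze_eq])))).mono (le_of_eq ?_)
    ring

theorem bound {p q : E} {a b r a' b' r' : ℝ} (h : C p a b r) (h' : C q a' b' r') :
    ∃ l, Reach S p q l ∧ l ≤ r + r' ∧ (0 < r → 0 < r' → ¬(a' = -a ∧ b' = -b) → l < r + r') := by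
  obtain ⟨u, b1, b2⟩ := h.bd
  obtain ⟨u', b3, b4⟩ := h'.bd
  obtain ⟨δ, d0, d1, d2, d3, d4⟩ : ∃ δ, 0 ≤ δ ∧ δ ≤ r ∧ δ ≤ r' ∧ δ ≤ 50 ∧ (0 < r → 0 < r' → 0 < δ) :=
    ⟨min (min r r') 50, by positivity, (min_le_left _ _).trans (min_le_left _ _),
      (min_le_left _ _).trans (min_le_right _ _), min_le_right _ _, fun _ _ => by positivity⟩
  have tp : ∀ {a b : ℝ}, a ^ 2 + b ^ 2 = 1 → ∃ x, C x a b δ ∧ x 2 = ze x := fun {a b} u => by
    have := a_bd u
    have e := (ze_pt a b δ ((853 + 11 * δ * a) / 61)).symm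
    exact ⟨_, ⟨δ, H_pt u d0 (by nlinarith) _, .inl ⟨e, rfl⟩⟩, e⟩
  obtain ⟨x, x1, x2⟩ := tp u
  obtain ⟨y, y1, y2⟩ := tp u'
  have e : ‖x - y‖ ^ 2 = (2 * δ) ^ 2 - δ ^ 2 * ((a + a') ^ 2 + (b + b') ^ 2) := by
    rw [nsq, x2, y2, (x1.top x2).dist (y1.top y2)]
    linear_combination 2 * δ ^ 2 * u + 2 * δ ^ 2 * u'
  refine ⟨_, ((up h x1 x2 d1 d3).trans (seg_top x1.mem y1.mem x2 y2)).trans
    (up h' y1 y2 d2 d3).symm, ?_, fun c1 c2 c3 => ?_⟩
  · have : 0 ≤ δ ^ 2 * ((a + a') ^ 2 + (b + b') ^ 2) := by positivity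
    linarith [(abs_le_of_sq_le_sq' (show ‖x - y‖ ^ 2 ≤ (2 * δ) ^ 2 by linarith) (by linarith)).2]
  · have c4 : 0 < (a + a') ^ 2 + (b + b') ^ 2 := by
      by_contra c
      apply c3
      constructor <;> nlinarith [sq_nonneg (a + a'), sq_nonneg (b + b')]
    have := mul_pos (pow_pos (d4 c1 c2) 2) c4
    linarith [(abs_lt_of_sq_lt_sq' (show ‖x - y‖ ^ 2 < (2 * δ) ^ 2 by linarith) (by linarith)).2]

theorem far {p q x : E} {a b r : ℝ} (h : C p a b r) (h' : C q (-a) (-b) (146 - r)) (hx : x ∈ S) :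
    dS S p x ≤ ENNReal.ofReal 146 ∧ (x ≠ q → dS S p x < ENNReal.ofReal 146) := by
  obtain ⟨a', b', r', hx⟩ := exC hx
  obtain ⟨l, l1, l2, l3⟩ := bound h hx
  obtain ⟨m, m1, m2, -⟩ := bound h.mir hx.mir
  have m3 := m1.map mir_lip mir_maps
  rw [mir_mir, mir_mir] at m3
  have lt : ∀ {l}, Reach S p x l → l < 146 → dS S p x < ENNReal.ofReal 146 := fun h1 h2 =>
    h1.dS_le.trans_lt ((ENNReal.ofReal_lt_ofReal_iff (by norm_num)).mpr h2)
  refine ⟨?_, fun ne => ?_⟩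
  · rcases le_total (r + r') 146 with c | c
    · exact (l1.mono (l2.trans c)).dS_le
    · exact (m3.mono (by linarith)).dS_le
  rcases lt_trichotomy (r + r') 146 with c | c | c
  · exact lt l1 (by linarith)
  · obtain rfl : r' = 146 - r := by linarith
    have u := h'.bd.1
    rcases h.bd.2.1.eq_or_lt with c1 | c1
    · exact absurd ((hx.pole (.inr (by linarith)) u).uniq h') ne
    rcases hx.bd.2.1.eq_or_lt with c2 | c2
    · exact absurd ((hx.pole (.inl c2.symm) u).uniq h') ne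
    refine lt l1 (c ▸ l3 c1 c2 ?_)
    rintro ⟨rfl, rfl⟩
    exact ne (hx.uniq h')
  · exact lt m3 (by linarith)

theorem anti {p q : E} {a b r : ℝ} (h : C p a b r) (h' : C q (-a) (-b) (146 - r)) :
    {x ∈ S | ∀ z ∈ S, dS S p z ≤ dS S p x} = {q} := by
  ext x
  constructor
  · rintro ⟨hx, h1⟩
    by_contra ne
    exact ((far h h' hx).2 ne).not_ge ((low h h').trans (h1 q h'.mem))
  · rintro rfl
    exact ⟨h'.mem, fun z hz => (far h h' hz).1.trans (low h h')⟩

theorem steinhaus : ∃ F : E → E, ∀ p ∈ S,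
    {x ∈ S | ∀ z ∈ S, dS S p z ≤ dS S p x} = {F p} ∧ F (F p) = p := by
  have : ∀ p ∈ S, ∃ q, {x ∈ S | ∀ z ∈ S, dS S p z ≤ dS S p x} = {q} ∧
      {x ∈ S | ∀ z ∈ S, dS S q z ≤ dS S q x} = {p} ∧ q ∈ S := fun p hp => by
    obtain ⟨a, b, r, h⟩ := exC hp
    obtain ⟨u, b1, b2⟩ := h.bd
    obtain ⟨q, h'⟩ := exP (a := -a) (b := -b) (r := 146 - r) (by linarith) (by linarith) (by linarith)
    exact ⟨q, anti h h', anti h' (by simpa using h), h'.mem⟩
  choose! F h1 h2 h3 using this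
  exact ⟨F, fun p hp => ⟨h1 p hp, singleton_injective ((h1 _ (h3 p hp)).symm.trans (h2 p hp))⟩⟩

noncomputable def rot (o w : E) (t : ℝ) (x : E) : E :=
  o + cos t • (x - o) + sin t • WithLp.toLp 2 (crossProduct w.ofLp (x - o).ofLp) +
    ((1 - cos t) * inner ℝ w (x - o)) • w

theorem face {o w : E} (h : ∀ t, MapsTo (rot o w t) S S) {e : ℝ} (he : e = 1 ∨ e = -1) {p : E}
    (h1 : p 0 ^ 2 + p 1 ^ 2 < 3600) (h2 : p 2 = e * ze p) :
    (w 0 * (p 1 - o 1) - w 1 * (p 0 - o 0)) =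
      e * 11 / 60 * (w 1 * (p 2 - o 2) - w 2 * (p 1 - o 1)) := by
  have b := ze_bd h1.le
  have hp : p ∈ S := by
    rcases he with rfl | rfl
    · exact ⟨⟨h1.le, by linarith, by linarith⟩, .inr (.inl (by linarith))⟩
    · exact ⟨⟨h1.le, by linarith, by linarith⟩, .inr (.inr (by linarith))⟩
  have c : Continuous fun t => rot o w t p := by unfold rot; fun_prop
  have r0 : rot o w 0 p = p := by simp [rot]
  have e1 : ∀ᶠ t in 𝓝 (0 : ℝ), rot o w t p 0 ^ 2 + rot o w t p 1 ^ 2 < 3600 :=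
    (isOpen_lt (by fun_prop) continuous_const).mem_nhds (by simpa only [mem_setOf_eq, r0] using h1)
  have e2 : ∀ᶠ t in 𝓝 (0 : ℝ), 0 < e * rot o w t p 2 :=
    (isOpen_lt continuous_const (by fun_prop)).mem_nhds (by
      simp only [mem_setOf_eq, r0, h2]
      rcases he with rfl | rfl <;> linarith)
  have e3 : (fun t => rot o w t p 2 - e * ze (rot o w t p)) =ᶠ[𝓝 0] fun _ => 0 := by
    filter_upwards [e1, e2] with t a1 a2
    have a3 := ze_bd a1.le
    rcases (h t hp).2 with a | a | a <;> rcases he with rfl | rfl <;> linarith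
  have d : HasDerivAt (fun t => rot o w t p 2 - e * ze (rot o w t p))
      ((w 0 * (p 1 - o 1) - w 1 * (p 0 - o 0)) -
        e * 11 / 60 * (w 1 * (p 2 - o 2) - w 2 * (p 1 - o 1))) 0 := by
    simp only [rot, ze, PiLp.add_apply, PiLp.smul_apply, smul_eq_mul, cross_apply, PiLp.sub_apply,
      WithLp.ofLp_sub, Pi.sub_apply, Matrix.cons_val]
    refine (DifferentiableAt.hasDerivAt (by fun_prop)).congr_deriv ?_
    simp (disch := fun_prop)
    ring
  exact sub_eq_zero.mp (d.unique ((hasDerivAt_const _ _).congr_of_eventuallyEq e3))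

theorem not_rev (o w : E) (hw : ‖w‖ = 1) : ∃ t, rot o w t '' S ≠ S := by
  by_contra h
  push Not at h
  have h' : ∀ t, MapsTo (rot o w t) S S := fun t p hp => h t ▸ mem_image_of_mem _ hp
  have a1 := face h' (.inl rfl) (p := !₂[0, 0, 12]) (by norm_num) (by norm_num [ze]; rfl)
  have a2 := face h' (.inl rfl) (p := !₂[0, 1, 12]) (by norm_num) (by norm_num [ze]; rfl)
  have a3 := face h' (.inl rfl) (p := !₂[30, 0, 35 / 2]) (by norm_num) (by norm_num [ze]; rfl)
  have a4 := face h' (.inr rfl) (p := !₂[0, 0, -12]) (by norm_num) (by norm_num [ze]; rfl)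
  have a5 := face h' (.inr rfl) (p := !₂[0, 1, -12]) (by norm_num) (by norm_num [ze]; rfl)
  simp only [Matrix.cons_val] at a1 a2 a3 a4 a5
  have : w = 0 := ext3 (show w 0 = 0 by linarith) (show w 1 = 0 by linarith)
    (show w 2 = 0 by linarith)
  simp [this] at hw

theorem int_ne : (interior K).Nonempty := ⟨0, by rw [int_K]; norm_num [ze]⟩

end Pool.Agent.H.MP_324c12_gt
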